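import Pool.Agent.N984.DI.Stm

/-!
# Leaf CPP: compound matrices and powers
-/

set_option autoImplicit false

namespace Pool.Agent.N738.DI

open Matrix Finset Pool.Agent.N984.DI
open scoped ComplexOrder

theorem cpd_dg (h2 : CPM) {n : ℕ} (k : ℕ) (U : Matrix (Fin n) (Fin n) ℂ) (x : Fin n → ℝ) :
    cpd k (dg U x) = dg (cpd k U) (fun I : Ix n k => ∏ i ∈ I.1, x i) := by
  obtain ⟨hm, hc, _, hd⟩ := h2 n k
  unfold dg
  rw [hm, hm, hc, hd]

theorem dg_posDef {ι : Type} [Fintype ι] [DecidableEq ι] {V : Matrix ι ι ℂ}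
    (hV : V ∈ Matrix.unitaryGroup ι ℂ) {y : ι → ℝ} (hy : ∀ i, 0 < y i) : (dg V y).PosDef := by
  have h1 : (Matrix.diagonal (fun i => (y i : ℂ))).PosDef := by
    rw [Matrix.posDef_diagonal_iff]
    intro i
    exact_mod_cast hy i
  have hinj : Function.Injective (Vᴴ).mulVec := by
    intro a b hab
    have h3 : V *ᵥ (Vᴴ *ᵥ a) = V *ᵥ (Vᴴ *ᵥ b) := by rw [hab]
    have h4 : V * Vᴴ = 1 := by
      have := (Matrix.mem_unitaryGroup_iff (A := V)).1 hV
      simpa [Matrix.star_eq_conjTranspose] using this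
    rwa [Matrix.mulVec_mulVec, Matrix.mulVec_mulVec, h4, Matrix.one_mulVec, Matrix.one_mulVec] at h3
  have h5 := h1.conjTranspose_mul_mul_same hinj
  rwa [Matrix.conjTranspose_conjTranspose] at h5

theorem pos_of_dg {ι : Type} [Fintype ι] [DecidableEq ι] {V : Matrix ι ι ℂ}
    (hV : V ∈ Matrix.unitaryGroup ι ℂ) {y : ι → ℝ} (hA : (dg V y).PosDef) (i : ι) : 0 < y i := by
  have h4 : Vᴴ * V = 1 := by
    have := (Matrix.mem_unitaryGroup_iff' (A := V)).1 hV
    simpa [Matrix.star_eq_conjTranspose] using this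
  have hinj : Function.Injective V.mulVec := by
    intro a b hab
    have h3 : Vᴴ *ᵥ (V *ᵥ a) = Vᴴ *ᵥ (V *ᵥ b) := by rw [hab]
    rwa [Matrix.mulVec_mulVec, Matrix.mulVec_mulVec, h4, Matrix.one_mulVec, Matrix.one_mulVec] at h3
  have h5 := hA.conjTranspose_mul_mul_same hinj
  have h6 : Vᴴ * dg V y * V = Matrix.diagonal (fun i => (y i : ℂ)) := by
    unfold dg
    calc Vᴴ * (V * Matrix.diagonal (fun i => (y i : ℂ)) * Vᴴ) * V
        = (Vᴴ * V) * Matrix.diagonal (fun i => (y i : ℂ)) * (Vᴴ * V) := by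
          simp only [Matrix.mul_assoc]
      _ = _ := by rw [h4, Matrix.one_mul, Matrix.mul_one]
  rw [h6, Matrix.posDef_diagonal_iff] at h5
  exact_mod_cast h5 i

theorem t_CPP (h0 : CFD) (h1 : SPD) (h2 : CPM) : CPP := by
  intro n k A hA
  obtain ⟨U, hU, x, _, rfl⟩ := h1 n A hA.1
  have hx : ∀ i, 0 < x i := fun i => pos_of_dg hU hA i
  have hcU : cpd k U ∈ Matrix.unitaryGroup (Ix n k) ℂ := (h2 n k).2.2.1 U hU
  refine ⟨?_, fun q => ?_⟩
  · rw [cpd_dg h2]
    exact dg_posDef hcU fun I => Finset.prod_pos fun i _ => hx i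
  · unfold mpow
    rw [cpd_dg h2, h0 _ U hU, h0 _ (cpd k U) hcU, cpd_dg h2]
    congr 1
    funext I
    exact Real.finsetProd_rpow _ _ (fun i _ => (hx i).le) q

end Pool.Agent.N738.DI
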